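import Pool.Agent.LRG.StmtsB

/-!
# Squad LRG, row WDV: Weierstrass division by a relation
-/

set_option autoImplicit false

open IsLocalRing

namespace Pool.Agent.LRG.H24

theorem gv_map {O O' : Type} [CommRing O] [CommRing O'] (f : O →+* O') {n D : ℕ}
    (c : (Fin n → Fin (D + 1)) → O) (V : Fin n → O) :
    f (gv c V) = gv (fun α => f (c α)) (fun i => f (V i)) := by
  simp only [gv, map_sum, map_mul, map_prod, map_pow]

/-- The images of the variables under the substitution with sign `ε`. -/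
noncomputable def av (R : Type) [CommRing R] (m D : ℕ) (ε : R) :
    Fin (m + 1) → MvPowerSeries (Fin (m + 1)) R :=
  Fin.cons (MvPowerSeries.X 0) fun i : Fin m =>
    MvPowerSeries.X i.succ + MvPowerSeries.C ε * MvPowerSeries.X 0 ^ (D + 1) ^ ((i : ℕ) + 1)

theorem av_subst (R : Type) [CommRing R] (m D : ℕ) (ε : R) :
    MvPowerSeries.HasSubst (av R m D ε) := by
  apply MvPowerSeries.hasSubst_of_constantCoeff_zero
  intro s
  refine Fin.cases ?_ (fun i => ?_) s
  · simp [av]
  · simp [av]

/-- The substitution. -/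
noncomputable def Th (R : Type) [CommRing R] (m D : ℕ) (ε : R) :
    MvPowerSeries (Fin (m + 1)) R →ₐ[R] MvPowerSeries (Fin (m + 1)) R :=
  MvPowerSeries.substAlgHom (av_subst R m D ε)

theorem Th_C (R : Type) [CommRing R] (m D : ℕ) (ε r : R) :
    Th R m D ε (MvPowerSeries.C r) = MvPowerSeries.C r :=
  (Th R m D ε).commutes r

theorem Th_X (R : Type) [CommRing R] (m D : ℕ) (ε : R) (s : Fin (m + 1)) :
    Th R m D ε (MvPowerSeries.X s) = av R m D ε s :=
  MvPowerSeries.substAlgHom_X _ s

theorem Th_comp (R : Type) [CommRing R] (m D : ℕ) (f : MvPowerSeries (Fin (m + 1)) R) :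
    Th R m D (-1) (Th R m D 1 f) = f := by
  have h : (fun s => MvPowerSeries.subst (av R m D (-1)) (av R m D 1 s)) =
      (MvPowerSeries.X : Fin (m + 1) → MvPowerSeries (Fin (m + 1)) R) := by
    funext s
    have h0 : MvPowerSeries.subst (av R m D (-1)) (av R m D 1 s) =
        Th R m D (-1) (av R m D 1 s) :=
      (MvPowerSeries.substAlgHom_apply (av_subst R m D (-1)) _).symm
    rw [h0]
    refine Fin.cases ?_ (fun i => ?_) s
    · have h1 : av R m D 1 0 = MvPowerSeries.X 0 := rfl
      rw [h1, Th_X]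
      rfl
    · have h1 : ∀ ε : R, av R m D ε i.succ = MvPowerSeries.X i.succ +
          MvPowerSeries.C ε * MvPowerSeries.X 0 ^ (D + 1) ^ ((i : ℕ) + 1) := fun ε => rfl
      have h2 : ∀ ε : R, av R m D ε 0 = MvPowerSeries.X 0 := fun ε => rfl
      rw [h1 1, map_add, map_mul, map_pow, Th_X, Th_X, Th_C, h1, h2]
      simp
  have h2 : Th R m D (-1) (Th R m D 1 f) =
      MvPowerSeries.subst (fun s => MvPowerSeries.subst (av R m D (-1)) (av R m D 1 s)) f := by
    rw [← MvPowerSeries.subst_comp_subst_apply (av_subst R m D 1) (av_subst R m D (-1))]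
    unfold Th
    rw [MvPowerSeries.substAlgHom_apply, MvPowerSeries.substAlgHom_apply]
  rw [h2, h, MvPowerSeries.subst_self]
  rfl

/-- The image of the substituted relation modulo the maximal ideal of the coefficients. -/
theorem red_ne_zero (hG : RgmStmt) (R : Type) [CommRing R] [IsLocalRing R] (m D : ℕ)
    (c : (Fin (m + 1) → Fin (D + 1)) → R) (hc : ∃ α, IsUnit (c α)) :
    (MvPowerSeries.finSuccEquiv R m (Th R m D 1
      (gv (fun α => MvPowerSeries.C (c α)) MvPowerSeries.X))).map
        (residue (MvPowerSeries (Fin m) R)) ≠ 0 := by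
  let ψ : MvPowerSeries (Fin (m + 1)) R →+* PowerSeries (ResidueField (MvPowerSeries (Fin m) R)) :=
    (PowerSeries.map (residue (MvPowerSeries (Fin m) R))).comp
      ((MvPowerSeries.finSuccEquiv R m : MvPowerSeries (Fin (m + 1)) R →+*
        PowerSeries (MvPowerSeries (Fin m) R)))
  have hψ : ∀ f, ψ f = (MvPowerSeries.finSuccEquiv R m f).map
      (residue (MvPowerSeries (Fin m) R)) := fun f => rfl
  have hC : ∀ r, ψ (MvPowerSeries.C r) =
      PowerSeries.C (residue (MvPowerSeries (Fin m) R) (MvPowerSeries.C r)) := by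
    intro r
    rw [hψ, MvPowerSeries.finSuccEquiv_C, PowerSeries.map_C]
  have h0 : ψ (MvPowerSeries.X 0) = PowerSeries.X := by
    rw [hψ, MvPowerSeries.finSuccEquiv_X_zero, PowerSeries.map_X]
  have hs : ∀ i : Fin m, ψ (MvPowerSeries.X i.succ) = 0 := by
    intro i
    rw [hψ, MvPowerSeries.finSuccEquiv_X_succ, PowerSeries.map_C]
    have h1 : residue (MvPowerSeries (Fin m) R) (MvPowerSeries.X i) = 0 := by
      rw [residue_eq_zero_iff, mem_maximalIdeal, mem_nonunits_iff,
        MvPowerSeries.isUnit_iff_constantCoeff]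
      simp
    rw [h1, map_zero]
  have hav : ∀ i : Fin (m + 1), ψ (av R m D 1 i) = PowerSeries.X ^ (D + 1) ^ (i : ℕ) := by
    intro i
    refine Fin.cases ?_ (fun i => ?_) i
    · change ψ (MvPowerSeries.X 0) = _
      rw [h0]
      simp
    · change ψ (MvPowerSeries.X i.succ +
        MvPowerSeries.C 1 * MvPowerSeries.X 0 ^ (D + 1) ^ ((i : ℕ) + 1)) = _
      rw [map_add, map_mul, map_pow, hs, h0]
      simp
  let cb : (Fin (m + 1) → Fin (D + 1)) → ResidueField (MvPowerSeries (Fin m) R) :=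
    fun α => residue (MvPowerSeries (Fin m) R) (MvPowerSeries.C (c α))
  have hcb : cb ≠ 0 := by
    obtain ⟨α, hα⟩ := hc
    intro h
    have h1 : residue (MvPowerSeries (Fin m) R) (MvPowerSeries.C (c α)) = 0 := congrFun h α
    have h2 : IsUnit (residue (MvPowerSeries (Fin m) R) (MvPowerSeries.C (c α))) :=
      (hα.map (MvPowerSeries.C (σ := Fin m) (R := R))).map _
    rw [h1] at h2
    exact not_isUnit_zero h2
  have key := hG (ResidueField (MvPowerSeries (Fin m) R)) (m + 1) D cb hcb
  intro h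
  apply key
  apply Polynomial.coe_injective
  rw [Polynomial.coe_zero]
  have e1 : ((gv (fun α => (Polynomial.C (cb α) : Polynomial _))
      (fun i : Fin (m + 1) => (Polynomial.X : Polynomial _) ^ (D + 1) ^ (i : ℕ)) :
        Polynomial (ResidueField (MvPowerSeries (Fin m) R))) :
        PowerSeries (ResidueField (MvPowerSeries (Fin m) R))) =
      gv (fun α => PowerSeries.C (cb α)) (fun i : Fin (m + 1) =>
        (PowerSeries.X : PowerSeries _) ^ (D + 1) ^ (i : ℕ)) := by
    have e2 := gv_map (Polynomial.coeToPowerSeries.ringHom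
      (R := ResidueField (MvPowerSeries (Fin m) R))) (fun α => Polynomial.C (cb α))
      (fun i : Fin (m + 1) => (Polynomial.X : Polynomial _) ^ (D + 1) ^ (i : ℕ))
    simpa using e2
  rw [e1, ← h, ← hψ]
  have e3 : ψ (Th R m D 1 (gv (fun α => MvPowerSeries.C (c α)) MvPowerSeries.X)) =
      gv (fun α => ψ (Th R m D 1 (MvPowerSeries.C (c α))))
        (fun i => ψ (Th R m D 1 (MvPowerSeries.X i))) := by
    have e4 := gv_map ((Th R m D 1 : MvPowerSeries (Fin (m + 1)) R →+*
      MvPowerSeries (Fin (m + 1)) R)) (fun α => MvPowerSeries.C (c α)) MvPowerSeries.X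
    have e5 : Th R m D 1 (gv (fun α => MvPowerSeries.C (c α)) MvPowerSeries.X) =
      gv (fun α => Th R m D 1 (MvPowerSeries.C (c α)))
        (fun i => Th R m D 1 (MvPowerSeries.X i)) := e4
    rw [e5, gv_map ψ]
  rw [e3]
  simp only [Th_C, Th_X, hC, hav]
  rfl

theorem poly_sum {A : Type} [CommRing A] (r : Polynomial A) (d : ℕ) (h : r.degree < d) :
    (r : PowerSeries A) = ∑ i : Fin d, PowerSeries.C (r.coeff i) * PowerSeries.X ^ (i : ℕ) := by
  ext j
  rw [Polynomial.coeff_coe, map_sum]
  simp only [PowerSeries.coeff_C_mul, PowerSeries.coeff_X_pow, mul_ite, mul_one, mul_zero]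
  by_cases hj : j < d
  · rw [Finset.sum_eq_single (⟨j, hj⟩ : Fin d)]
    · simp
    · intro b _ hb
      rw [if_neg]
      intro h'
      exact hb (Fin.ext h'.symm)
    · simp
  · rw [Finset.sum_eq_zero]
    · exact Polynomial.coeff_eq_zero_of_degree_lt (lt_of_lt_of_le h (by exact_mod_cast not_lt.mp hj))
    · intro b _
      rw [if_neg]
      intro h'
      exact hj (h' ▸ b.2)

theorem wdv : WdvStmt := by
  intro hA hG R _ _ hR m D c hc
  have : IsAdicComplete (maximalIdeal (MvPowerSeries (Fin m) R)) (MvPowerSeries (Fin m) R) :=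
    hA R hR (Fin m)
  let E : MvPowerSeries (Fin (m + 1)) R ≃ₐ[R] PowerSeries (MvPowerSeries (Fin m) R) :=
    MvPowerSeries.finSuccEquiv R m
  let g : MvPowerSeries (Fin (m + 1)) R := gv (fun α => MvPowerSeries.C (c α)) MvPowerSeries.X
  let Cc : MvPowerSeries (Fin m) R →ₐ[R] PowerSeries (MvPowerSeries (Fin m) R) :=
    IsScalarTower.toAlgHom R (MvPowerSeries (Fin m) R) (PowerSeries (MvPowerSeries (Fin m) R))
  have hCc : ∀ x, Cc x = PowerSeries.C x := fun x => rfl
  let Θ' := Th R m D (-1)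
  let θ : MvPowerSeries (Fin m) R →ₐ[R] MvPowerSeries (Fin (m + 1)) R :=
    (Θ'.comp (E.symm : PowerSeries (MvPowerSeries (Fin m) R) →ₐ[R]
      MvPowerSeries (Fin (m + 1)) R)).comp Cc
  have hθ : ∀ x, θ x = Θ' (E.symm (PowerSeries.C x)) := fun x => rfl
  have hne := red_ne_zero hG R m D c hc
  refine ⟨((E (Th R m D 1 g)).map
    (Ideal.Quotient.mk (maximalIdeal (MvPowerSeries (Fin m) R)))).order.toNat, θ, ?_, ?_⟩
  · intro i
    rw [hθ, ← MvPowerSeries.finSuccEquiv_X_succ]
    change Θ' (E.symm (E (MvPowerSeries.X i.succ))) = _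
    rw [AlgEquiv.symm_apply_apply]
    change Th R m D (-1) _ = _
    rw [Th_X]
    change MvPowerSeries.X i.succ +
        MvPowerSeries.C (-1) * MvPowerSeries.X 0 ^ (D + 1) ^ ((i : ℕ) + 1) = _
    rw [map_neg, map_one]
    ring
  · intro f
    obtain ⟨q, r, hdeg, heq⟩ := PowerSeries.exists_isWeierstrassDivision (E (Th R m D 1 f)) hne
    refine ⟨Θ' (E.symm q), fun i => r.coeff i, ?_⟩
    rw [poly_sum r _ hdeg] at heq
    have h1 := congrArg (fun x => Θ' (E.symm x)) heq
    simp only [map_add, map_mul, map_sum, map_pow] at h1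
    rw [AlgEquiv.symm_apply_apply] at h1
    have h2 : Θ' (Th R m D 1 f) = f := Th_comp R m D f
    rw [h2] at h1
    have h3 : Θ' (E.symm (MvPowerSeries.finSuccEquiv R m (Th R m D 1
      (gv (fun α => MvPowerSeries.C (c α)) MvPowerSeries.X)))) =
        gv (fun α => MvPowerSeries.C (c α)) MvPowerSeries.X := by
      change Θ' (E.symm (E (Th R m D 1 g))) = g
      rw [AlgEquiv.symm_apply_apply]
      exact Th_comp R m D g
    have h4 : Θ' (E.symm PowerSeries.X) = MvPowerSeries.X 0 := by
      rw [← MvPowerSeries.finSuccEquiv_X_zero (R := R) (n := m)]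
      change Θ' (E.symm (E (MvPowerSeries.X 0))) = _
      rw [AlgEquiv.symm_apply_apply]
      exact Th_X R m D (-1) 0
    rw [h3, h4] at h1
    rw [h1, mul_comm (Θ' (E.symm q))]
    rfl

end Pool.Agent.LRG.H24
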